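import Pool.Agent.H14.SK.Shift2
import Pool.Agent.H14.VC.Lin

/-!
# Almost prime values of EVERY admissible system of linear forms at shifted differences of elements of
sparse sets, uniformly in the system
-/

set_option autoImplicit false

namespace Pool.Agent.Results.MP_746f10_nt.DifferencesEverySystem

open Finset
open Pool.Agent.H14.SK

/-- no prime divides the product of the forms at every integer -/
def Admissible {K : ℕ} (a b : Fin K → ℤ) : Prop :=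
  ∀ p : ℕ, p.Prime → ∃ n : ℤ, ∀ i, ¬ (p : ℤ) ∣ a i * n + b i

/-- all prime factors of the integer `m` are larger than `y` and there are at most `r` of them, counted
with multiplicity -/
def AlmostPrime (y : ℝ) (r : ℕ) (m : ℤ) : Prop :=
  (∀ p : ℕ, p.Prime → (p : ℤ) ∣ m → y < p) ∧ ArithmeticFunction.cardFactors m.natAbs ≤ r

open Classical in
/-- the number of the residue classes modulo `p` in which one of the forms `a i * x + b i` vanishes -/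
noncomputable def roots {K : ℕ} (a b : Fin K → ℤ) (p : ℕ) : ℕ :=
  ((range p).filter (fun x : ℕ => ∃ i, (p : ℤ) ∣ a i * (x : ℤ) + b i)).card

open Classical in
/-- sets of density at least `(log N) ^ (-1 + ε)` -/
theorem dense : ∀ K : ℕ, ∃ κ : ℝ, 0 < κ ∧ ∀ B : ℕ, ∃ r : ℕ, ∀ ε : ℝ, 0 < ε → ∃ (C : ℝ) (N₀ : ℕ), 0 < C ∧
    ∀ N : ℕ, N₀ ≤ N → ∀ a b : Fin K → ℤ,
    (∀ i, 1 ≤ a i ∧ a i ≤ (N : ℤ) ^ B ∧ 1 ≤ b i ∧ b i ≤ (N : ℤ) ^ B) → Admissible a b →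
    ∀ α : ℝ, 0 < α → α ≤ 1 → Real.log N ^ (-(1 - ε)) ≤ α →
    ∃ h : ℕ, (h : ℝ) ≤ Real.exp (C * α ^ (-(1 + ε))) ∧ h ≤ N ∧ ∀ A : Finset ℕ, A ⊆ Icc 1 N → α * N ≤ A.card →
      Real.exp (-(C * α ^ (-(1 + ε)))) * N ^ 2 *
          ∏ p ∈ (range (N + 1)).filter Nat.Prime, (1 - (roots a b p : ℝ) / p) ≤
        (((A ×ˢ A).filter (fun x => x.1 < x.2 ∧
          ∀ i, AlmostPrime ((N : ℝ) ^ κ) r (a i * ((x.2 : ℤ) - x.1 + h) + b i))).card : ℝ) ∧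
      Real.exp (-(C * α ^ (-(1 + ε)))) * N ^ 2 / Real.log N ^ K ≤
        (((A ×ˢ A).filter (fun x => x.1 < x.2 ∧
          ∀ i, AlmostPrime ((N : ℝ) ^ κ) r (a i * ((x.2 : ℤ) - x.1 + h) + b i))).card : ℝ) := by
  intro K
  obtain ⟨κ, hκ, hS⟩ := sys_shift K
  obtain ⟨c, hc, hPV⟩ := PV_ge_log K
  refine ⟨κ, hκ, ?_⟩
  intro B
  obtain ⟨r, hr⟩ := hS B
  refine ⟨r, ?_⟩
  intro ε hε
  obtain ⟨C, N₁, hC, hN₁⟩ := hr ε hε
  obtain ⟨C₀, hC₀⟩ : ∃ C₀ : ℝ, C₀ = max 0 (Real.log (1 / c)) := ⟨_, rfl⟩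
  have hC₀0 : 0 ≤ C₀ := by rw [hC₀]; exact le_max_left _ _
  have hC₀1 : Real.exp (-C₀) ≤ c := by
    have h1 : Real.log (1 / c) ≤ C₀ := by rw [hC₀]; exact le_max_right _ _
    calc Real.exp (-C₀) ≤ Real.exp (-Real.log (1 / c)) := Real.exp_le_exp.2 (by linarith)
      _ = c := by
          rw [Real.exp_neg, Real.exp_log (by positivity), one_div, inv_inv]
  refine ⟨C + C₀, max N₁ 3, by linarith, ?_⟩
  intro N hN a b hab hadm α hα hα1 hαL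
  have hN3 : 3 ≤ N := (le_max_right _ _).trans hN
  have hNr : (3 : ℝ) ≤ N := by exact_mod_cast hN3
  have hL : 0 < Real.log N := Real.log_pos (by linarith)
  obtain ⟨τ, hτ⟩ : ∃ τ, τ = α ^ (-(1 + ε)) := ⟨_, rfl⟩
  have hτ1 : 1 ≤ τ := by
    rw [hτ]
    exact Real.one_le_rpow_of_pos_of_le_one_of_nonpos hα hα1 (by linarith)
  have hadm' : ∀ p : ℕ, p.Prime → ∃ n : ℤ, ¬ LF a b p n := by
    intro p hp
    obtain ⟨n, hn⟩ := hadm p hp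
    exact ⟨n, fun ⟨i, hi⟩ => hn i hi⟩
  obtain ⟨h, h1, h2, h3⟩ := hN₁ N ((le_max_left _ _).trans hN) a b (by
    intro i
    obtain ⟨h1, h2, h3, h4⟩ := hab i
    rw [abs_of_pos (by omega), abs_of_pos (by omega)]
    exact ⟨h2, h4⟩) hadm' α hα hα1 hαL
  rw [← hτ] at h1 h3 ⊢
  have hCτ : C * τ ≤ (C + C₀) * τ := by
    have := mul_nonneg hC₀0 (by linarith : (0 : ℝ) ≤ τ)
    linarith
  refine ⟨h, h1.trans (Real.exp_le_exp.2 hCτ), h2, ?_⟩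
  intro A hA hcard
  have h4 := h3 A hA hcard
  have hcount : (((A ×ˢ A).filter (fun x => x.1 < x.2 ∧
          ∀ i, AP ((N : ℝ) ^ κ) r (a i * ((x.2 : ℤ) - x.1 + h) + b i))).card : ℝ) =
      (((A ×ˢ A).filter (fun x => x.1 < x.2 ∧
          ∀ i, AlmostPrime ((N : ℝ) ^ κ) r (a i * ((x.2 : ℤ) - x.1 + h) + b i))).card : ℝ) := rfl
  rw [← hcount]
  have hroots : ∀ p : ℕ, rho (LF a b) p = roots a b p := by
    intro p
    unfold rho roots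
    congr 1
    ext x
    constructor
    · intro h
      have h2 := mem_filter.1 h
      exact mem_filter.2 ⟨h2.1, h2.2⟩
    · intro h
      have h2 := mem_filter.1 h
      exact mem_filter.2 ⟨h2.1, h2.2⟩
  have hfull : ∏ p ∈ (range (N + 1)).filter Nat.Prime, (1 - (roots a b p : ℝ) / p) ≤
      PV (LF a b) (2 * K) N := by
    refine le_trans (le_of_eq ?_) (full_le_PV (LF a b) (2 * K) N)
    apply prod_congr (by congr)
    intro p _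
    rw [hroots]
  have hPV0 := PV_nonneg (LF a b) (2 * K) N
  constructor
  · refine le_trans ?_ h4
    calc Real.exp (-((C + C₀) * τ)) * N ^ 2 *
          ∏ p ∈ (range (N + 1)).filter Nat.Prime, (1 - (roots a b p : ℝ) / p)
        ≤ Real.exp (-((C + C₀) * τ)) * N ^ 2 * PV (LF a b) (2 * K) N := by gcongr
      _ ≤ Real.exp (-(C * τ)) * N ^ 2 * PV (LF a b) (2 * K) N := by
          gcongr
  · refine le_trans ?_ h4
    have h5 := hPV (LF a b) (fun p hp => LF_rho a b p hp (hadm' p hp)) N hN3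
    have h6 : Real.exp (-((C + C₀) * τ)) ≤ Real.exp (-(C * τ)) * c := by
      calc Real.exp (-((C + C₀) * τ)) = Real.exp (-(C * τ)) * Real.exp (-(C₀ * τ)) := by
            rw [← Real.exp_add]
            congr 1
            ring
        _ ≤ Real.exp (-(C * τ)) * c := by
            apply mul_le_mul_of_nonneg_left _ (Real.exp_pos _).le
            refine le_trans (Real.exp_le_exp.2 ?_) hC₀1
            have := mul_le_mul_of_nonneg_left hτ1 hC₀0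
            linarith
    calc Real.exp (-((C + C₀) * τ)) * N ^ 2 / Real.log N ^ K
        ≤ (Real.exp (-(C * τ)) * c) * N ^ 2 / Real.log N ^ K := by gcongr
      _ = Real.exp (-(C * τ)) * N ^ 2 * (c / Real.log N ^ K) := by ring
      _ ≤ Real.exp (-(C * τ)) * N ^ 2 * PV (LF a b) (2 * K) N := by gcongr

open Classical in
/-- sets with at least `N ^ (1 - κ)` elements -/
theorem sparse :
    ∀ (K : ℕ) (θ : ℝ), 0 < θ → θ ≤ 1 → ∃ κ : ℝ, 0 < κ ∧ ∀ B : ℕ, ∃ r : ℕ, ∀ ε : ℝ, 0 < ε → ∃ N₀ : ℕ,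
      ∀ N : ℕ, N₀ ≤ N → ∀ a b : Fin K → ℤ, (∀ i, |a i| ≤ (N : ℤ) ^ B ∧ |b i| ≤ (N : ℤ) ^ B) → Admissible a b →
      ∃ h : ℕ, 0 < h ∧ (h : ℝ) ≤ (N : ℝ) ^ θ ∧
      ∀ (u : ℕ) (A : Finset ℕ), A ⊆ Ioc u (u + N) → (N : ℝ) ^ (1 - κ) ≤ A.card →
        (A.card : ℝ) ^ 2 * (N : ℝ) ^ (-ε) ≤
          ((A ×ˢ A).filter (fun x : ℕ × ℕ => x.1 < x.2 ∧ ∀ i,
            AlmostPrime ((N : ℝ) ^ κ) r (a i * ((x.2 : ℤ) - x.1 + h) + b i) ∧
            AlmostPrime ((N : ℝ) ^ κ) r (a i * (h - ((x.2 : ℤ) - x.1)) + b i))).card := by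
  intro K θ hθ hθ1
  obtain ⟨κ, hκ, _, h1⟩ := Pool.Agent.H14.VC.lin_vc K θ hθ hθ1
  refine ⟨κ, hκ, ?_⟩
  intro B
  obtain ⟨r, hr⟩ := h1 B
  exact ⟨r, hr⟩

open Classical in
/-- **Almost prime values of every admissible system at shifted differences.** -/
theorem result :
    -- (1) power saving: sets with at least `N ^ (1 - κ)` elements
    (∀ (K : ℕ) (θ : ℝ), 0 < θ → θ ≤ 1 → ∃ κ : ℝ, 0 < κ ∧ ∀ B : ℕ, ∃ r : ℕ, ∀ ε : ℝ, 0 < ε → ∃ N₀ : ℕ,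
      ∀ N : ℕ, N₀ ≤ N → ∀ a b : Fin K → ℤ, (∀ i, |a i| ≤ (N : ℤ) ^ B ∧ |b i| ≤ (N : ℤ) ^ B) → Admissible a b →
      ∃ h : ℕ, 0 < h ∧ (h : ℝ) ≤ (N : ℝ) ^ θ ∧
      ∀ (u : ℕ) (A : Finset ℕ), A ⊆ Ioc u (u + N) → (N : ℝ) ^ (1 - κ) ≤ A.card →
        (A.card : ℝ) ^ 2 * (N : ℝ) ^ (-ε) ≤
          ((A ×ˢ A).filter (fun x : ℕ × ℕ => x.1 < x.2 ∧ ∀ i,
            AlmostPrime ((N : ℝ) ^ κ) r (a i * ((x.2 : ℤ) - x.1 + h) + b i) ∧
            AlmostPrime ((N : ℝ) ^ κ) r (a i * (h - ((x.2 : ℤ) - x.1)) + b i))).card) ∧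
    -- (2) sets of density at least `(log N) ^ (-1 + ε)`, lower bounds of the right order for fixed density
    (∀ K : ℕ, ∃ κ : ℝ, 0 < κ ∧ ∀ B : ℕ, ∃ r : ℕ, ∀ ε : ℝ, 0 < ε → ∃ (C : ℝ) (N₀ : ℕ), 0 < C ∧
    ∀ N : ℕ, N₀ ≤ N → ∀ a b : Fin K → ℤ,
    (∀ i, 1 ≤ a i ∧ a i ≤ (N : ℤ) ^ B ∧ 1 ≤ b i ∧ b i ≤ (N : ℤ) ^ B) → Admissible a b →
    ∀ α : ℝ, 0 < α → α ≤ 1 → Real.log N ^ (-(1 - ε)) ≤ α →
    ∃ h : ℕ, (h : ℝ) ≤ Real.exp (C * α ^ (-(1 + ε))) ∧ h ≤ N ∧ ∀ A : Finset ℕ, A ⊆ Icc 1 N → α * N ≤ A.card →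
      Real.exp (-(C * α ^ (-(1 + ε)))) * N ^ 2 *
          ∏ p ∈ (range (N + 1)).filter Nat.Prime, (1 - (roots a b p : ℝ) / p) ≤
        (((A ×ˢ A).filter (fun x => x.1 < x.2 ∧
          ∀ i, AlmostPrime ((N : ℝ) ^ κ) r (a i * ((x.2 : ℤ) - x.1 + h) + b i))).card : ℝ) ∧
      Real.exp (-(C * α ^ (-(1 + ε)))) * N ^ 2 / Real.log N ^ K ≤
        (((A ×ˢ A).filter (fun x => x.1 < x.2 ∧
          ∀ i, AlmostPrime ((N : ℝ) ^ κ) r (a i * ((x.2 : ℤ) - x.1 + h) + b i))).card : ℝ)) :=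
  ⟨sparse, dense⟩

end Pool.Agent.Results.MP_746f10_nt.DifferencesEverySystem
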