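import Mathlib
import Pool.Agent.H92.T.FinX

/-!
# The uniform prime tuplets conjecture for a positive proportion of the subsets of EVERY admissible set, up to the values of one real character

For every `m` there are `K`, `A`, `D` and `c > 0`, and for every `B` a `γ`, such that for every `M ≥ 2` there is a real
character `χ ≠ 1` modulo some `f > (log M) ^ B` with the following property. Let `a_i x + b_i`, `i < k`, be ANY admissible set of
distinct forms with `a_i ≤ M`; `k` is arbitrary. Call `i` exceptional if `f` divides `D a_i` and `χ (a_i n + b_i) = 1` for all
`n` for which all the values are prime to `D`. Let `U` be the set of the exceptional `i` and `V` the set of the others.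

* If `V` has `v ≥ K` elements, then for at least `c (v choose m)` of the `m`-element subsets `S` of `V` at least `M` of the
  `n ≤ γ M ^ A` make all `a_i n + b_i` (`i ∈ S`) PRIME.
* If `U` has `u ≥ K` elements, then for at least `c (u choose m)` of the `m`-element subsets `S` of `U` at least `M` of the
  `n ≤ γ M ^ A` make all `a_i n + b_i` (`i ∈ S`) products of exactly two primes.

If `k ≥ 2 K` one of the two applies to at least half of the forms; in particular some `n ≤ γ M ^ A` makes at least `m` of the
values prime, or at least `m` of them products of two primes, and the second case is needed only if `χ` is `1` at the values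
of more than `k - K` of the forms. Here `A` depends only on `m`, and `M` is any bound for the leading coefficients (so there are
`x ^ κ` such `n ≤ x` for all `x ≥ γ M ^ A`). Earlier results of this kind exclude all the `a_i` which are divisible by one
possibly exceptional modulus `f`.

Proof. If no exceptional modulus divides many of the `D a_i` we use the Maynard-Tao sieve at the scale of Linnik's theorem
(lower bounds of the `L`-functions near `1`, from the library; here for a fixed number of forms and with the
exceptional modulus allowed for the other forms; `Pool.Agent.H92.T.Good`). The new part is the case of an exceptional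
modulus `f` (modulus of a real primitive character `χ` whose `L`-function is very small near `1`) which divides many
`D a_i`. The sum of `1 / r` over the primes `r` with `χ (r) = 1` in a long range is bounded, and by the pigeonhole
principle there is a scale `s`, between two fixed powers of `M`, such that this sum over `s ^ 16 < r ≤ s ^ V` is as small
as we like.

* A form which is not exceptional has `χ = -1` at its values for `n` in some class modulo `D` for which all the values of all
  the forms are prime to `D`, and many of the forms have such a class in common. For forms with `χ = -1` at the values the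
  primes are counted from below, as for one form, by the linear sieve up to the exponent `1 / 2 - ε` combined with the rarity
  of the primes `r` with `χ (r) = 1`: a value `a_i n + b_i` without small prime factors that is composite has a prime factor
  `r` with `χ (r) = 1`. This holds in all progressions modulo `a_i q` with `q` a small power of `s` and is turned into a lower
  bound for the sums of von Mangoldt's function with the weights of the Maynard-Tao sieve (`Pool.Agent.H92.T.Mass`, `Minus`).
* For the forms with `χ = 1` at the values there may be too few primes. We choose different primes `p_i` with `χ (p_i) = -1`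
  between two fixed powers of `s`, restrict `n` to the progression in which `p_i` divides `a_i n + b_i` for
  all `i`, and divide. The new forms are admissible and have `χ = -1` (`Pool.Agent.H92.T.Subst`).

All this is done in the classes `ν + D j` modulo `D 2 ^ t`, `j < 2 ^ t`, `2 ^ t` about `M` (`Pool.Agent.H92.T.MainX`), and
double counting gives the sets `S` and the `M` numbers `n` (`Pool.Agent.H92.T.FinX`).
-/

set_option autoImplicit false

open Finset Filter

namespace Pool.Agent.Results.MP_746f10_nt.ManyPrimesEverySystem

/-- admissible sets of `k` linear forms `a i * x + b i` -/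
def Admissible {k : ℕ} (a b : Fin k → ℕ) : Prop :=
  (∀ i, 1 ≤ b i ∧ b i < a i) ∧ ∀ p : ℕ, p.Prime → ∃ n : ℤ, ∀ i, ¬ (p : ℤ) ∣ a i * n + b i

/-- products of exactly two primes -/
def ProductOfTwoPrimes (n : ℕ) : Prop := ∃ p q : ℕ, p.Prime ∧ q.Prime ∧ n = p * q

/-- the form number `i` is exceptional for the character `χ` modulo `f` and the number `D`: `f` divides `D * a i`, and
`χ (a i * n + b i) = 1` for all `n` for which all the values `a j * n + b j` are prime to `D` -/
def Exceptional {f : ℕ} (χ : DirichletCharacter ℂ f) (D : ℕ) {k : ℕ} (a b : Fin k → ℕ) (i : Fin k) : Prop :=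
  f ∣ D * a i ∧ ∀ n : ℕ, (∀ j, (a j * n + b j).Coprime D) → χ ((a i * n + b i : ℕ) : ZMod f) = 1

theorem adm_of {k : ℕ} {a b : Fin k → ℕ} (h : Admissible a b) : Pool.Agent.H262R2.UM.Adm a b := by
  intro p hp
  obtain ⟨n, hn⟩ := h.2 p hp
  have hp0 : (0 : ℤ) < p := by exact_mod_cast hp.pos
  refine ⟨(n % p).toNat, fun i hd => hn i ?_⟩
  have h1 : ((n % p).toNat : ℤ) = n % p := Int.toNat_of_nonneg (Int.emod_nonneg _ hp0.ne')
  have h2 : (p : ℤ) ∣ (a i : ℤ) * ((n % p).toNat : ℤ) + b i := by exact_mod_cast hd
  rw [h1] at h2
  have h3 : (p : ℤ) ∣ (a i : ℤ) * (n - n % p) := (Int.dvd_self_sub_emod).mul_left _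
  have h4 := dvd_add h2 h3
  have e : (a i : ℤ) * (n % p) + b i + (a i : ℤ) * (n - n % p) = a i * n + b i := by ring
  rwa [e] at h4

open Classical in
/-- For every `m` there are `K`, `A`, `D ≥ 1` and `c > 0`, and for every `B` a `γ`, such that for every `M ≥ 2` there is a
real character `χ ≠ 1` modulo some `f > (log M) ^ B` with the following property for every admissible set of distinct forms
with leading coefficients at most `M`. Let `V` be the set of the forms which are not exceptional and `U` the set of the
exceptional ones. If `V` has `v ≥ K` elements, then for at least `c (v choose m)` of the `m`-element subsets `S` of `V` there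
are at least `M` numbers `n ≤ γ M ^ A` such that all the `a i * n + b i`, `i ∈ S`, are prime. If `U` has `u ≥ K` elements, then
for at least `c (u choose m)` of the `m`-element subsets `S` of `U` there are at least `M` numbers `n ≤ γ M ^ A` such that
all the `a i * n + b i`, `i ∈ S`, are products of two primes. -/
theorem result (m : ℕ) : ∃ K A D : ℕ, 0 < D ∧ ∃ c : ℝ, 0 < c ∧ ∀ B : ℕ, ∃ γ : ℕ, ∀ M : ℕ, 2 ≤ M →
    ∃ (f : ℕ) (_ : NeZero f) (χ : DirichletCharacter ℂ f), (Real.log M) ^ B < f ∧ χ ^ 2 = 1 ∧ χ ≠ 1 ∧
    ∀ (k : ℕ) (a b : Fin k → ℕ), Admissible a b → Function.Injective (fun i => (a i, b i)) → (∀ i, a i ≤ M) →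
      (K ≤ #{i | ¬ Exceptional χ D a b i} → c * (#{i | ¬ Exceptional χ D a b i}).choose m ≤
        #{S ∈ powersetCard m ({i | ¬ Exceptional χ D a b i} : Finset (Fin k)) |
          M ≤ #{n ∈ range (γ * M ^ A + 1) | ∀ i ∈ S, (a i * n + b i).Prime}}) ∧
      (K ≤ #{i | Exceptional χ D a b i} → c * (#{i | Exceptional χ D a b i}).choose m ≤
        #{S ∈ powersetCard m ({i | Exceptional χ D a b i} : Finset (Fin k)) |
          M ≤ #{n ∈ range (γ * M ^ A + 1) | ∀ i ∈ S, ProductOfTwoPrimes (a i * n + b i)}}) := by
  obtain ⟨K, A, D, hD, c, hc, h⟩ := Pool.Agent.H92.T.finX m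
  refine ⟨K, A, D, hD, c, hc, fun B => ?_⟩
  obtain ⟨γ, hγ⟩ := h B
  refine ⟨γ, fun M hM => ?_⟩
  obtain ⟨f, hf0, χ, hf, h2, h1, hsys⟩ := hγ M hM
  refine ⟨f, hf0, χ, hf, h2, h1, fun k a b hadm hinj haM => ?_⟩
  exact hsys k a b (adm_of hadm) (fun j => ⟨by have := hadm.1 j; omega, (hadm.1 j).2.le⟩) hinj haM

end Pool.Agent.Results.MP_746f10_nt.ManyPrimesEverySystem
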