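import Mathlib
import Pool.Agent.H92.K.FinV

/-!
# Linnik's theorem for every admissible set of linear forms: one prime value, all the others almost prime

For every `k` there are `A`, `R`, `γ` such that for EVERY admissible set of `k` distinct forms `a_j x + b_j` and
every choice of one form `a_i x + b_i` of the set there is `n ≤ γ (max a_j) ^ A` (so `n ≤ γ (a_1 ⋯ a_k) ^ A`) at which
`a_i n + b_i` is PRIME and all the other forms have at most `R` prime factors, counted with multiplicity. There is no
exception and no condition on the coefficients. For `k = 1` this is Linnik's theorem.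

We also count these `n`: there are at least `x ^ κ` of them below every `x ≥ γ (max a_j) ^ A`, and for some `N` between
`max a_j` and `γ (max a_j) ^ A` their number up to `N` has at least the expected order of magnitude
`N ∏_{p ≤ N} (1 - ν (p) / p) ≥ c N / (log N) ^ k`; only if `a_i` is divisible by the conductor of the exceptional character
`χ` and `χ (b_i) = 1` this has to be multiplied by `L (1, χ) ∏_{p ≤ N} (1 - χ (p) / p)`, the factor by which the primes in the
class `b_i` modulo `a_i` may be fewer than expected. In all cases the number is at least `N ^ (1 - ε)`.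

Proof. Let `M` bound the `a_j`. If no exceptional modulus `f` (modulus of a real primitive character `χ` whose
`L`-function has a zero very close to `1` relative to `log M`) divides `a_i`, the theorem follows from the lower bound
in Linnik's theorem and a relative theorem of Bombieri-Vinogradov type (helper modules `Pool.Agent.H92.F`). The new
part is the case `f ∣ a_i`, in which `χ (a_i n + b_i) = χ (b_i) = ±1` for all `n`. Then the sum of `1 / r` over the
primes `r` with `χ (r) = 1` in a long range is bounded, and by the pigeonhole principle there is a scale `s`, between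
two fixed powers of `M`, such that this sum over `s ^ 16 < r ≤ s ^ V` is as small as we like.

* If `χ (b_i) = -1`, the linear sieve makes all the prime factors of `a_i n + b_i` larger than `N ^ (17 / 50)` and a
  sieve of dimension `k` makes all the values free of primes `≤ s`. A composite value `a_i n + b_i` is a product
  of two primes, and one of them, `r`, has `χ (r) = 1`, as `χ = -1` at the product. Such `n` are few.
* If `χ (b_i) = 1`, we count with the weights `λ = 1 * χ ≥ 0`, which are `2` at primes. Here `L (1, χ)` may be small, but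
  it is at least `c / f`, and the sum of `λ (a_i n + b_i)` over the sifted `n` has an asymptotic formula from the
  hyperbola method. A composite value with `λ > 0` without small prime factors and not divisible by a large square
  has again a prime factor `r` with `χ (r) = 1` in the range, and the weights of these `n` are again counted.
-/

set_option autoImplicit false

open Finset Filter

namespace Pool.Agent.Results.MP_746f10_nt.OnePrimeEverySystem

/-- admissible sets of `k` linear forms `a i * x + b i` -/
def Admissible {k : ℕ} (a b : Fin k → ℕ) : Prop :=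
  (∀ i, 1 ≤ b i ∧ b i < a i) ∧ ∀ p : ℕ, p.Prime → ∃ n : ℤ, ∀ i, ¬ (p : ℤ) ∣ a i * n + b i

/-- the number of the residues modulo `p` at which one of the forms is divisible by `p` -/
def nu {k : ℕ} (a b : Fin k → ℕ) (p : ℕ) : ℕ := #{n ∈ range p | ∃ i, p ∣ a i * n + b i}

/-- the expected density of the `n ≤ N` at which all the forms are prime -/
noncomputable def density {k : ℕ} (a b : Fin k → ℕ) (N : ℕ) : ℝ :=
  ∏ p ∈ range (N + 1) with p.Prime, (1 - (nu a b p : ℝ) / p)

/-- the number of the `n ≤ N` at which the form number `i` is prime and all the forms have at most `R` prime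
factors, counted with multiplicity -/
def count {k : ℕ} (a b : Fin k → ℕ) (i : Fin k) (R N : ℕ) : ℕ :=
  #{n ∈ range (N + 1) | (a i * n + b i).Prime ∧ ∀ j, (a j * n + b j).primeFactorsList.length ≤ R}

/-- `|L (1, χ)| ∏_{p ≤ N} (1 - χ (p) / p)` for a real character `χ` -/
noncomputable def siegel {f : ℕ} [NeZero f] (χ : DirichletCharacter ℂ f) (N : ℕ) : ℝ :=
  ‖DirichletCharacter.LFunction χ 1‖ * ∏ p ∈ range (N + 1) with p.Prime, (1 - (χ (p : ZMod f)).re / p)

open Classical in
/-- the factor in the lower bound for the number of the `n`: it is `siegel χ N` if the modulus `f` of the character `χ`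
divides `a` and `χ (b) = 1`, and `1` otherwise -/
noncomputable def factor {f : ℕ} [NeZero f] (χ : DirichletCharacter ℂ f) (a b N : ℕ) : ℝ :=
  if f ∣ a ∧ χ (b : ZMod f) = 1 then siegel χ N else 1

theorem adm_of {k : ℕ} {a b : Fin k → ℕ} (h : Admissible a b) : Pool.Agent.H262R2.UM.Adm a b := by
  intro p hp
  obtain ⟨n, hn⟩ := h.2 p hp
  have hp0 : (0 : ℤ) < p := by exact_mod_cast hp.pos
  refine ⟨(n % p).toNat, fun i hd => hn i ?_⟩
  have h1 : ((n % p).toNat : ℤ) = n % p := Int.toNat_of_nonneg (Int.emod_nonneg _ hp0.ne')
  have h2 : (p : ℤ) ∣ (a i : ℤ) * ((n % p).toNat : ℤ) + b i := by exact_mod_cast hd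
  rw [h1] at h2
  have h3 : (p : ℤ) ∣ (a i : ℤ) * (n - n % p) := (Int.dvd_self_sub_emod).mul_left _
  have h4 := dvd_add h2 h3
  have e : (a i : ℤ) * (n % p) + b i + (a i : ℤ) * (n - n % p) = a i * n + b i := by ring
  rwa [e] at h4

theorem density_eq {k : ℕ} (a b : Fin k → ℕ) (N : ℕ) : density a b N = Pool.Agent.H92.F.dens a b N := by
  unfold density Pool.Agent.H92.F.dens nu Pool.Agent.H92.F.nu Pool.Agent.H262R2.UP.Pz
  apply prod_congr rfl
  intro p _
  rw [mul_one_div]

/-- For every `k` and `ε > 0` there are `A`, `R`, `c > 0`, `κ > 0` such that for every `B` there is `γ` such that for every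
`M ≥ 2` there is a real character `χ ≠ 1` modulo some `f > (log M) ^ B` with the following property. Let an admissible set
of `k` distinct forms with leading coefficients at most `M` and one of its forms, the form number `i`, be given. Then for
every `x ≥ γ M ^ A` there are at least `x ^ κ` numbers `n ≤ x` such that `a i * n + b i` is prime and all `a j * n + b j` have
at most `R` prime factors, counted with multiplicity; and for some `N` between `M` and `γ M ^ A` there are at least
`N ^ (1 - ε)` and at least `c N density (N) factor (N)` such numbers `n ≤ N`, and `density (N) ≥ c / (log N) ^ k`. -/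
theorem result (k : ℕ) (ε : ℝ) (hε : 0 < ε) : ∃ A R : ℕ, ∃ c κ : ℝ, 0 < c ∧ 0 < κ ∧ ∀ B : ℕ, ∃ γ : ℕ, ∀ M : ℕ, 2 ≤ M →
    ∃ (f : ℕ) (_ : NeZero f) (χ : DirichletCharacter ℂ f), (Real.log M) ^ B < f ∧ χ ^ 2 = 1 ∧ χ ≠ 1 ∧
    ∀ a b : Fin k → ℕ, Admissible a b → Function.Injective (fun i => (a i, b i)) → (∀ i, a i ≤ M) → ∀ i,
      (∀ x : ℕ, γ * M ^ A ≤ x → (x : ℝ) ^ κ ≤ count a b i R x) ∧
      ∃ N : ℕ, M ≤ N ∧ N ≤ γ * M ^ A ∧ (N : ℝ) ^ (1 - ε) ≤ count a b i R N ∧
        c / (Real.log N) ^ k ≤ density a b N ∧
        c * N * density a b N * factor χ (a i) (b i) N ≤ count a b i R N := by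
  obtain ⟨A, R, c, κ, hc, hκ, h⟩ := Pool.Agent.H92.K.finV k ε hε
  refine ⟨A, R, c, κ, hc, hκ, fun B => ?_⟩
  obtain ⟨γ, hγ⟩ := h B
  refine ⟨γ, fun M hM => ?_⟩
  obtain ⟨f, hf0, χ, hf, h2, h1, hsys⟩ := hγ M hM
  refine ⟨f, hf0, χ, hf, h2, h1, fun a b hadm hinj haM i => ?_⟩
  obtain ⟨g1, N, g2, g3, g4, g5, g6, g7⟩ := hsys a b ⟨adm_of hadm, fun j => ⟨by have := hadm.1 j; omega, (hadm.1 j).2.le⟩,
    fun j => (hadm.1 j).1, hinj, haM⟩ i
  rw [← density_eq] at g5 g6 g7
  refine ⟨g1, N, g2, g3, g4, g5, ?_⟩
  unfold factor
  split_ifs with h3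
  · exact g7 h3.1 h3.2
  · rw [mul_one]
    exact g6 h3

end Pool.Agent.Results.MP_746f10_nt.OnePrimeEverySystem
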