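import Pool.Agent.H14.MS.Mert

/-!
# Almost prime values of systems of linear forms at the common differences of patterns in dense sets,
uniformly in the forms
-/

set_option autoImplicit false

namespace Pool.Agent.Results.MP_746f10_nt.PatternDifferences

open Finset
open Pool.Agent.H14.MS Pool.Agent.H14.SK

/-- all prime factors of the integer `m` are larger than `y` -/
def Rough (y : ℝ) (m : ℤ) : Prop :=
  ∀ p : ℕ, p.Prime → (p : ℤ) ∣ m → y < p

open Classical in
/-- the number of the residue classes modulo `p` in which one of the forms `a i * x + b i` vanishes -/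
noncomputable def roots {K : ℕ} (a b : Fin K → ℤ) (p : ℕ) : ℕ :=
  ((range p).filter (fun x : ℕ => ∃ i, (p : ℤ) ∣ a i * (x : ℤ) + b i)).card

/-- the sieve condition -/
def Bad {K : ℕ} (a b : Fin K → ℤ) (p : ℕ) (n : ℤ) : Prop := ∃ i, (p : ℤ) ∣ a i * n + b i

lemma bad_per {K : ℕ} (a b : Fin K → ℤ) :
    ∀ p : ℕ, ∀ n m : ℤ, (p : ℤ) ∣ n - m → (Bad a b p n ↔ Bad a b p m) := by
  intro p n m h
  unfold Bad
  apply exists_congr
  intro i
  have h1 : (p : ℤ) ∣ (a i * n + b i) - (a i * m + b i) := by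
    have : (a i * n + b i) - (a i * m + b i) = a i * (n - m) := by ring
    rw [this]
    exact h.mul_left _
  constructor
  · intro h2
    have := dvd_sub h2 h1
    rwa [sub_sub_cancel] at this
  · intro h2
    have := dvd_add h1 h2
    rwa [sub_add_cancel] at this

open Classical in
lemma bad_rho {K : ℕ} (a b : Fin K → ℤ) (hab : ∀ i, IsCoprime (a i) (b i)) (p : ℕ) (hp : p.Prime) :
    rho (Bad a b) p ≤ K := by
  have hpi : Prime (p : ℤ) := Nat.prime_iff_prime_int.1 hp
  have h1 : (range p).filter (fun r : ℕ => Bad a b p r) ⊆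
      (univ : Finset (Fin K)).biUnion (fun i => (range p).filter (fun x : ℕ => (p : ℤ) ∣ a i * (x : ℤ) + b i)) := by
    intro r hr
    obtain ⟨h2, i, h3⟩ := mem_filter.1 hr
    rw [mem_biUnion]
    exact ⟨i, mem_univ _, mem_filter.2 ⟨h2, h3⟩⟩
  unfold rho
  refine (card_le_card h1).trans (card_biUnion_le.trans ?_)
  calc ∑ i : Fin K, ((range p).filter (fun x : ℕ => (p : ℤ) ∣ a i * (x : ℤ) + b i)).card
      ≤ ∑ _i : Fin K, 1 := by
        apply sum_le_sum
        intro i _
        rw [card_le_one]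
        intro x hx y hy
        rw [mem_filter, mem_range] at hx hy
        by_cases hpa : (p : ℤ) ∣ a i
        · exfalso
          have h2 : (p : ℤ) ∣ b i := by
            have := dvd_sub hx.2 (hpa.mul_right (x : ℤ))
            rwa [add_sub_cancel_left] at this
          exact hpi.not_isUnit ((hab i).isUnit_of_dvd' hpa h2)
        · have h2 : (p : ℤ) ∣ a i * ((x : ℤ) - y) := by
            have := dvd_sub hx.2 hy.2
            have e : a i * (x : ℤ) + b i - (a i * (y : ℤ) + b i) = a i * ((x : ℤ) - y) := by ring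
            rwa [e] at this
          have h3 := (hpi.dvd_or_dvd h2).resolve_left hpa
          have h4 : x ≡ y [MOD p] := by
            rw [← Int.natCast_modEq_iff]
            exact (Int.modEq_iff_dvd.2 (by
              have := dvd_neg.2 h3
              rwa [neg_sub] at this))
          exact Nat.ModEq.eq_of_lt_of_lt h4 hx.1 hy.1
    _ = K := by simp

/-- a positive integer `m ≤ N ^ B` without prime factors up to `N ^ κ` has few prime factors -/
lemma omega_le (κ : ℝ) (hκ : 0 < κ) (N B m : ℕ) (hN : 2 ≤ N) (hm : m ≠ 0) (hmN : m ≤ N ^ B)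
    (h : ∀ p : ℕ, p.Prime → p ∣ m → (N : ℝ) ^ κ < p) :
    (ArithmeticFunction.cardFactors m : ℝ) ≤ B / κ := by
  have hN0 : (0 : ℝ) < N := by exact_mod_cast (by omega : 0 < N)
  have hN1 : (1 : ℝ) < N := by exact_mod_cast (by omega : 1 < N)
  have hL : 0 < Real.log N := Real.log_pos hN1
  have h1 : ((N : ℝ) ^ κ) ^ (m.primeFactorsList.length) ≤ (m : ℝ) := by
    have h2 : ((N : ℝ) ^ κ) ^ (m.primeFactorsList.length) ≤
        ((m.primeFactorsList.map (fun p : ℕ => (p : ℝ))).prod) := by
      have : ∀ l : List ℕ, (∀ p ∈ l, (N : ℝ) ^ κ ≤ p) →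
          ((N : ℝ) ^ κ) ^ l.length ≤ (l.map (fun p : ℕ => (p : ℝ))).prod := by
        intro l
        induction l with
        | nil => intro _; simp
        | cons a l ih =>
          intro hl
          rw [List.length_cons, pow_succ, List.map_cons, List.prod_cons, mul_comm]
          apply mul_le_mul (hl a (by simp)) (ih fun p hp => hl p (by simp [hp])) (by positivity)
            (by positivity)
      apply this
      intro p hp
      exact (h p (Nat.prime_of_mem_primeFactorsList hp) (Nat.dvd_of_mem_primeFactorsList hp)).le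
    refine h2.trans ?_
    have h3 : (m.primeFactorsList.map (fun p : ℕ => (p : ℝ))).prod = ((m.primeFactorsList.prod : ℕ) : ℝ) := by
      rw [Nat.cast_list_prod]
    rw [h3, Nat.prod_primeFactorsList hm]
  rw [ArithmeticFunction.cardFactors_apply, le_div_iff₀ hκ]
  have h4 : (m : ℝ) ≤ (N : ℝ) ^ B := by exact_mod_cast hmN
  have h5 := Real.log_le_log (by positivity) (h1.trans h4)
  rw [Real.log_pow, Real.log_pow, Real.log_rpow hN0] at h5
  have h6 : ((m.primeFactorsList.length : ℝ) * κ) * Real.log N ≤ B * Real.log N := by linarith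
  exact le_of_mul_le_mul_right h6 hL

open Classical in
/-- **Differences of patterns and almost prime values of systems of linear forms, uniformly in the forms.**

For all `K` and `k` there is `κ > 0`, and for every `B` there is `r`, such that for all `d`, all vectors
`v 1, …, v k` in `ℤ^d` and all `δ > 0` there are `w`, `c > 0` and `N₀` such that the following holds for all
`N ≥ N₀` and all linear forms `a i * x + b i` (`i = 1, …, K`) with coprime coefficients in `[1, N ^ B]` whose
constant terms `b i` have no prime factor up to `w`: every set `A ⊆ {1, …, N}^d` with at least `δ N ^ d`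
elements contains the translates `x + n v i` together with `x` for at least
`c N ^ (d + 1) ∏_{p ≤ N} (1 - ρ(p) / p)` pairs `(x, n)` with `x ∈ A`, `1 ≤ n ≤ N` such that all the numbers
`a i * n + b i` are free of prime factors up to `N ^ κ` and have at most `r` prime factors; here `ρ(p)` is the
number of the residue classes modulo `p` in which one of the forms vanishes. The number of these pairs is
also at least `c N ^ (d + 1) / (log N) ^ K`. -/
theorem result : ∀ K k : ℕ, ∃ κ : ℝ, 0 < κ ∧ ∀ B : ℕ, ∃ r : ℕ,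
    ∀ (d : ℕ) (v : Fin k → Fin d → ℤ) (δ : ℝ), 0 < δ → ∃ (w : ℕ) (c : ℝ), 0 < c ∧ ∃ N₀ : ℕ,
    ∀ N : ℕ, N₀ ≤ N → ∀ a b : Fin K → ℤ,
      (∀ i, 1 ≤ a i ∧ a i ≤ (N : ℤ) ^ B ∧ 1 ≤ b i ∧ b i ≤ (N : ℤ) ^ B ∧ IsCoprime (a i) (b i)) →
      (∀ i, ∀ p : ℕ, p.Prime → p ≤ w → ¬ (p : ℤ) ∣ b i) →
      ∀ A ⊆ Fintype.piFinset (fun _ : Fin d => Finset.Icc (1 : ℤ) N), δ * (N : ℝ) ^ d ≤ A.card →
        c * (N : ℝ) ^ (d + 1) * ∏ p ∈ (Finset.range (N + 1)).filter Nat.Prime, (1 - (roots a b p : ℝ) / p) ≤
          (((A ×ˢ Finset.Icc (1 : ℤ) N).filter (fun x => (∀ i, x.1 + x.2 • v i ∈ A) ∧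
            ∀ i, Rough ((N : ℝ) ^ κ) (a i * x.2 + b i) ∧
              ArithmeticFunction.cardFactors (a i * x.2 + b i).natAbs ≤ r)).card : ℝ) ∧
        c * (N : ℝ) ^ (d + 1) / Real.log N ^ K ≤
          (((A ×ˢ Finset.Icc (1 : ℤ) N).filter (fun x => (∀ i, x.1 + x.2 • v i ∈ A) ∧
            ∀ i, Rough ((N : ℝ) ^ κ) (a i * x.2 + b i) ∧
              ArithmeticFunction.cardFactors (a i * x.2 + b i).natAbs ≤ r)).card : ℝ) := by
  intro K k
  obtain ⟨κ, hκ, hpat⟩ := patterns_abs K k
  refine ⟨κ, hκ, ?_⟩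
  intro B
  refine ⟨⌈((B + 2 : ℕ) : ℝ) / κ⌉₊, ?_⟩
  intro d v δ hδ
  obtain ⟨w, c1, hw, hc1, N0, hN0⟩ := hpat d v δ hδ
  obtain ⟨c2, hc2, hVP⟩ := VP_ge K w hw
  refine ⟨w, c1 * min 1 c2, by positivity, max N0 3, ?_⟩
  intro N hN a b hab hb A hA hAδ
  have hN3 : 3 ≤ N := (le_max_right _ _).trans hN
  have hNN : N0 ≤ N := (le_max_left _ _).trans hN
  have hNr : (3 : ℝ) ≤ N := by exact_mod_cast hN3
  have hL : 0 < Real.log N := Real.log_pos (by linarith)
  have hρ : ∀ p : ℕ, p.Prime → rho (Bad a b) p ≤ K := fun p hp => bad_rho a b (fun i => (hab i).2.2.2.2) p hp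
  have h0 : ∀ p : ℕ, p.Prime → p ≤ w → ¬ Bad a b p 0 := by
    rintro p hp hpw ⟨i, hi⟩
    apply hb i p hp hpw
    simpa using hi
  have hmain := hN0 N hNN (Bad a b) (bad_per a b) hρ h0 A hA hAδ
  have hVN := hVP (Bad a b) hρ h0 N hN3
  have heq : VP (Bad a b) N = ∏ p ∈ (Finset.range (N + 1)).filter Nat.Prime, (1 - (roots a b p : ℝ) / p) := by
    have h1 : ∀ p : ℕ, rho (Bad a b) p = roots a b p := by
      intro p
      unfold rho roots
      congr 1
      ext x
      constructor
      · intro h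
        have h2 := mem_filter.1 h
        exact mem_filter.2 ⟨h2.1, h2.2⟩
      · intro h
        have h2 := mem_filter.1 h
        exact mem_filter.2 ⟨h2.1, h2.2⟩
    unfold VP
    apply prod_congr (by congr)
    intro p _
    rw [h1]
  have hV0 : 0 ≤ VP (Bad a b) N := le_trans (by positivity) hVN
  have hcount : (((A ×ˢ Icc (1 : ℤ) N).filter (fun x => (∀ i, x.1 + x.2 • v i ∈ A) ∧
            ∀ p : ℕ, p.Prime → (p : ℝ) ≤ (N : ℝ) ^ κ → ¬ Bad a b p x.2)).card : ℝ) ≤
          (((A ×ˢ Finset.Icc (1 : ℤ) N).filter (fun x => (∀ i, x.1 + x.2 • v i ∈ A) ∧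
            ∀ i, Rough ((N : ℝ) ^ κ) (a i * x.2 + b i) ∧
              ArithmeticFunction.cardFactors (a i * x.2 + b i).natAbs ≤ ⌈((B + 2 : ℕ) : ℝ) / κ⌉₊)).card : ℝ) := by
    apply Nat.cast_le.2
    apply card_le_card
    intro x hx
    obtain ⟨hx1, hx2, hx3⟩ := mem_filter.1 hx
    have hx4 := mem_Icc.1 (mem_product.1 hx1).2
    refine mem_filter.2 ⟨hx1, hx2, ?_⟩
    intro i
    have hR : Rough ((N : ℝ) ^ κ) (a i * x.2 + b i) := by
      intro p hp hd
      by_contra hle
      exact hx3 p hp (not_lt.1 hle) ⟨i, hd⟩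
    refine ⟨hR, ?_⟩
    obtain ⟨ha1, ha2, hb1, hb2, -⟩ := hab i
    have hpos : 0 < a i * x.2 + b i := by
      have : 0 < a i * x.2 := by
        apply mul_pos <;> linarith [hx4.1]
      linarith
    have hle : a i * x.2 + b i ≤ (N : ℤ) ^ (B + 2) := by
      have h1 : a i * x.2 ≤ (N : ℤ) ^ B * N := by
        apply mul_le_mul ha2 hx4.2 (by linarith [hx4.1]) (by positivity)
      have hNi : (3 : ℤ) ≤ N := by exact_mod_cast hN3
      have h2 : (0 : ℤ) < (N : ℤ) ^ B := by positivity
      calc a i * x.2 + b i ≤ (N : ℤ) ^ B * N + (N : ℤ) ^ B := by linarith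
        _ = (N : ℤ) ^ B * (N + 1) := by ring
        _ ≤ (N : ℤ) ^ B * (N * N) := by
            apply mul_le_mul_of_nonneg_left _ h2.le
            nlinarith
        _ = (N : ℤ) ^ (B + 2) := by ring
    have h3 : (ArithmeticFunction.cardFactors (a i * x.2 + b i).natAbs : ℝ) ≤ ((B + 2 : ℕ) : ℝ) / κ := by
      apply omega_le κ hκ N (B + 2) _ (by omega) (by
        intro h
        rw [Int.natAbs_eq_zero] at h
        omega)
      · have : ((a i * x.2 + b i).natAbs : ℤ) ≤ ((N ^ (B + 2) : ℕ) : ℤ) := by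
          rw [Int.natAbs_of_nonneg hpos.le]
          push_cast
          exact hle
        exact_mod_cast this
      · intro p hp hd
        exact hR p hp (Int.natCast_dvd.2 hd)
    exact Nat.cast_le.1 (h3.trans (Nat.le_ceil _))
  constructor
  · rw [← heq]
    refine le_trans ?_ (hmain.trans hcount)
    have : c1 * min 1 c2 ≤ c1 := by
      calc c1 * min 1 c2 ≤ c1 * 1 := by gcongr; exact min_le_left _ _
        _ = c1 := mul_one _
    gcongr
  · refine le_trans ?_ (hmain.trans hcount)
    calc c1 * min 1 c2 * (N : ℝ) ^ (d + 1) / Real.log N ^ K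
        ≤ c1 * c2 * (N : ℝ) ^ (d + 1) / Real.log N ^ K := by
          gcongr
          exact min_le_right _ _
      _ = c1 * (N : ℝ) ^ (d + 1) * (c2 / Real.log N ^ K) := by ring
      _ ≤ c1 * (N : ℝ) ^ (d + 1) * VP (Bad a b) N := by gcongr

end Pool.Agent.Results.MP_746f10_nt.PatternDifferences
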